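import Mathlib
import Pool.Agent.H21.FM.Inter
import Pool.Agent.Q1.M4.Geo2
import Pool.Agent.Q1.M4.Geo7

set_option autoImplicit false
open Filter Topology Finset

/-! # Positions of the wall points

`wp (2 h) s j` at scale `2 h` is the point of the side `s` at the parameter `j / (2 h)`. -/

namespace Pool.Agent.H14.FM

open Pool.Agent.H75.Perc hiding WL CT hh ph
open Pool.Agent.H75.TwoArm Pool.Agent.H75.Four Pool.Agent.H69.Q1 Pool.Agent.Q1
open Pool.Agent.Q1.M4 (Cell Good IsSide nextSide tail head PType Reg Om lat inV inRect lpt pt)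
open Pool.Agent.H33.Q1 Pool.Agent.H21.FM

/-- the integer grid -/
abbrev ic : ℤ → ℝ := fun i => (i : ℝ)

lemma ic_mono : StrictMono ic := fun _ _ h => by simpa [ic] using h

lemma wp_inG (P : PType) (h i : ℕ) {j : ℤ} (h0 : 0 ≤ j) (h1 : j ≤ 2 * h) :
    inG P h (wp (2 * h) (P.side i) j) := by
  refine ⟨(P.side i).1, (P.side_isSide i).1, ?_⟩
  set s := P.side i
  unfold inRect wp
  rw [tail_io]
  rcases io_dir s.2 with ⟨-, b, c, -⟩ | ⟨-, b, c, -⟩ | ⟨-, b, c, -⟩ | ⟨-, b, c, -⟩ <;>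
    rw [b, c] <;> simp only [Prod.fst_sub, Prod.snd_sub] <;>
    refine ⟨⟨?_, ?_⟩, ?_, ?_⟩ <;> nlinarith

lemma bp_wp (P : PType) (h : ℕ) : bp P h = wp (2 * h) (P.side 0) 0 := by
  unfold bp wp lpt PType.vert
  simp

/-- the direction as a complex number -/
def cdir (k : ℤ) : ℂ := ⟨(dir k).1, (dir k).2⟩

lemma sidePt_ic (P : PType) (i : ℕ) (t : ℝ) :
    P.sidePt ic ic i t = pt ic ic (P.vert i) + t * cdir (P.side i).2 := by
  unfold PType.sidePt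
  rw [P.vert_head i]
  congr 2
  unfold head pt cdir PType.vert
  apply Complex.ext <;> simp

lemma lat_wp (P : PType) {h : ℕ} (hh : 1 ≤ h) (i : ℕ) (j : ℤ) :
    lat (wp (2 * h) (P.side i) j) / ((2 * (h : ℝ) : ℝ) : ℂ) =
      P.sidePt ic ic i ((j : ℝ) / (2 * h)) := by
  have hp : (2 * (h : ℝ) : ℝ) ≠ 0 := by positivity
  have hp' : ((2 * (h : ℝ) : ℝ) : ℂ) ≠ 0 := by exact_mod_cast hp
  rw [sidePt_ic, div_eq_iff hp']
  have e : (((j : ℝ) / (2 * h) : ℝ) : ℂ) * ((2 * (h : ℝ) : ℝ) : ℂ) = (j : ℂ) := by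
    rw [← Complex.ofReal_mul, div_mul_cancel₀ _ hp]; simp
  have e2 : (pt ic ic (P.vert i) + (((j : ℝ) / (2 * h) : ℝ) : ℂ) * cdir (P.side i).2) *
      ((2 * (h : ℝ) : ℝ) : ℂ) = ((2 * (h : ℝ) : ℝ) : ℂ) * pt ic ic (P.vert i) +
        (j : ℂ) * cdir (P.side i).2 := by
    rw [← e]; ring
  rw [e2]
  unfold lat wp pt cdir PType.vert
  apply Complex.ext
  · simp
  · simp

lemma lim_wp (P : PType) (i : ℕ) {U : Filter ℕ} (hU : U ≤ atTop) {J : ℕ → ℤ} {t : ℝ}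
    (hJ : Tendsto (fun h : ℕ => ((J h : ℝ)) / (2 * h)) U (𝓝 t)) :
    Tendsto (fun h : ℕ => lat (wp (2 * h) (P.side i) (J h)) / ((2 * (h : ℝ) : ℝ) : ℂ)) U
      (𝓝 (P.sidePt ic ic i t)) := by
  have e : (fun h : ℕ => lat (wp (2 * h) (P.side i) (J h)) / ((2 * (h : ℝ) : ℝ) : ℂ)) =ᶠ[U]
      fun h => P.sidePt ic ic i ((J h : ℝ) / (2 * h)) := by
    filter_upwards [hU (eventually_ge_atTop 1)] with h hh
    exact lat_wp P hh i (J h)
  refine Tendsto.congr' e.symm ?_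
  have hc : Continuous fun t : ℝ => P.sidePt ic ic i t := by
    unfold PType.sidePt
    fun_prop
  exact (hc.tendsto t).comp hJ

/-- limit of the value at a wall point -/
lemma lim_val {P : PType} {Ht : ℕ → ℤ × ℤ → ℂ} {U : Ultrafilter ℕ} (hU : (U : Filter ℕ) ≤ atTop)
    {g : ℂ → ℂ} (L : IsLim4 P (fun j => j) Ht U g) (i : ℕ) {J : ℕ → ℤ} {t : ℝ}
    (hJ : Tendsto (fun h : ℕ => ((J h : ℝ)) / (2 * h)) U (𝓝 t))
    (hJ0 : ∀ᶠ h : ℕ in (U : Filter ℕ), 0 ≤ J h ∧ J h ≤ 2 * h) (ht : P.sidePt ic ic i t ∈ Reg P.Q ic ic) :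
    Tendsto (fun h : ℕ => nrm P h (Ht h) (wp (2 * h) (P.side i) (J h))) U
      (𝓝 (g (P.sidePt ic ic i t))) := by
  refine L.lim _ ht (fun h => wp (2 * h) (P.side i) (J h)) ?_ ?_
  · filter_upwards [hJ0] with h hh
    exact wp_inG P h i hh.1 hh.2
  · exact lim_wp P i hU hJ

end Pool.Agent.H14.FM
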