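import Mathlib
import Pool.Agent.H14.FM.Pos
import Pool.Agent.H19.RH.Back
import Pool.Agent.Q1.M4.Limit4

set_option autoImplicit false
open Filter Topology Finset

/-! # The end of the four-marks theorem on a shape

From the limits of the three primitives along an ultrafilter: `h23` is not constant, the ratio of the
increments of `h12` and `h23` at the first mark is the limit of `qn`; with `Data4.ratio` the limit of
`qn` is Cardy's function of the cross ratio. -/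

namespace Pool.Agent.H14.FM

open Pool.Agent.H75.Perc hiding WL CT hh ph
open Pool.Agent.H75.TwoArm Pool.Agent.H75.Four Pool.Agent.H69.Q1 Pool.Agent.Q1
open Pool.Agent.Q1.M4 (Cell Good IsSide nextSide tail head PType Reg Om lat inV inRect lpt pt)
open Pool.Agent.H33.Q1 Pool.Agent.H21.FM
open Pool.Agent.H19.RH (Cht Data4 lam)
open Pool.Agent.H13.Q1.Four (cardy)

/-- mass of the strand of the first mark at the `j`-th vertex of the side `0` -/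
noncomputable def ac (S : Shape) (h j : ℕ) : ℝ :=
  mA S h (wv h (S.P.side 0) j) + mC S h (wv h (S.P.side 0) j)

lemma mA_nonneg (S : Shape) (h : ℕ) (v : ℤ × ℤ) : 0 ≤ mA S h v := Pr_nonneg _ _
lemma mC_nonneg (S : Shape) (h : ℕ) (v : ℤ × ℤ) : 0 ≤ mC S h v := Pr_nonneg _ _
lemma mD_nonneg (S : Shape) (h : ℕ) (v : ℤ × ℤ) : 0 ≤ mD S h v := Pr_nonneg _ _
lemma ac_nonneg (S : Shape) (h j : ℕ) : 0 ≤ ac S h j := add_nonneg (mA_nonneg _ _ _) (mC_nonneg _ _ _)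

/-- telescoping -/
lemma tele (F : ℤ → ℂ) (J : ℕ) :
    ∑ j ∈ Icc 1 J, (F (2 * (j : ℤ) + 1) - F (2 * (j : ℤ) - 1)) = F (2 * (J : ℤ) + 1) - F 1 := by
  induction J with
  | zero => simp
  | succ J ih =>
    rw [sum_Icc_succ_top (by omega), ih]
    have : (2 * ((J + 1 : ℕ) : ℤ) - 1) = 2 * (J : ℤ) + 1 := by push_cast; ring
    rw [this]
    ring

lemma one_sum {S : Shape} {h : ℕ} {H12 H23 H34 : ℤ × ℤ → ℂ} (T : Tab S h H12 H23 H34) {J : ℕ}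
    (hJ : J < h) :
    H23 (wp (2 * h) (S.P.side 0) (2 * J + 1)) - H23 (wp (2 * h) (S.P.side 0) 1) =
      (1 - ph 2) * ph (S.k 0) * ((∑ j ∈ Icc 1 J, ac S h j : ℝ) : ℂ) ∧
    H12 (wp (2 * h) (S.P.side 0) (2 * J + 1)) - H12 (wp (2 * h) (S.P.side 0) 1) =
      (1 - ph 2) * ph (S.k 0) * (((∑ j ∈ Icc 1 J, mC S h (wv h (S.P.side 0) j) : ℝ) : ℂ) +
        ph 4 * ((∑ j ∈ Icc 1 J, mD S h (wv h (S.P.side 0) j) : ℝ) : ℂ)) := by
  constructor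
  · have e := tele (fun t => H23 (wp (2 * h) (S.P.side 0) t)) J
    rw [← e]
    push_cast
    rw [mul_sum]
    refine sum_congr rfl fun j hj => ?_
    rw [mem_Icc] at hj
    have h1 := (T.one 0 S.h02 j hj.1 (by omega)).1
    unfold incr at h1
    unfold ac
    rw [h1]
    push_cast
    ring
  · have e := tele (fun t => H12 (wp (2 * h) (S.P.side 0) t)) J
    rw [← e]
    push_cast
    rw [mul_sum, ← sum_add_distrib, mul_sum]
    refine sum_congr rfl fun j hj => ?_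
    rw [mem_Icc] at hj
    have h1 := (T.one 0 S.h02 j hj.1 (by omega)).2.2
    unfold incr at h1
    rw [h1]
    push_cast
    ring

/-- the ratio at scale `h` -/
lemma dec_sum {S : Shape} {h : ℕ} {H12 H23 H34 : ℤ × ℤ → ℂ} (T : Tab S h H12 H23 H34) {J : ℕ}
    (hJ : J < h) {ε : ℝ} (hd : ∀ j : ℕ, 1 ≤ j → j ≤ J →
      |mC S h (wv h (S.P.side 0) j) - qn S h * ac S h j| ≤ ε * ac S h j ∧
      mD S h (wv h (S.P.side 0) j) ≤ ε * ac S h j) :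
    ‖(H12 (wp (2 * h) (S.P.side 0) (2 * J + 1)) - H12 (wp (2 * h) (S.P.side 0) 1)) -
      (qn S h : ℂ) *
        (H23 (wp (2 * h) (S.P.side 0) (2 * J + 1)) - H23 (wp (2 * h) (S.P.side 0) 1))‖ ≤
    2 * ε * ‖H23 (wp (2 * h) (S.P.side 0) (2 * J + 1)) - H23 (wp (2 * h) (S.P.side 0) 1)‖ := by
  obtain ⟨e1, e2⟩ := one_sum T hJ
  rw [e1, e2]
  set A : ℝ := ∑ j ∈ Icc 1 J, ac S h j with hA
  set B : ℝ := ∑ j ∈ Icc 1 J, mC S h (wv h (S.P.side 0) j) with hB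
  set D : ℝ := ∑ j ∈ Icc 1 J, mD S h (wv h (S.P.side 0) j) with hD
  have hA0 : 0 ≤ A := sum_nonneg fun j _ => ac_nonneg _ _ _
  have hD0 : 0 ≤ D := sum_nonneg fun j _ => mD_nonneg _ _ _
  have b1 : |B - qn S h * A| ≤ ε * A := by
    rw [hA, hB, mul_sum, ← sum_sub_distrib, mul_sum]
    refine (abs_sum_le_sum_abs _ _).trans (sum_le_sum fun j hj => ?_)
    rw [mem_Icc] at hj
    exact (hd j hj.1 hj.2).1
  have b2 : D ≤ ε * A := by
    rw [hA, hD, mul_sum]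
    refine sum_le_sum fun j hj => ?_
    rw [mem_Icc] at hj
    exact (hd j hj.1 hj.2).2
  have e3 : (1 - ph 2) * ph (S.k 0) * ((B : ℂ) + ph 4 * (D : ℂ)) -
      (qn S h : ℂ) * ((1 - ph 2) * ph (S.k 0) * (A : ℂ)) =
      (1 - ph 2) * ph (S.k 0) * (((B - qn S h * A : ℝ) : ℂ) + ph 4 * (D : ℂ)) := by
    push_cast; ring
  rw [e3, norm_mul, norm_mul ((1 - ph 2) * ph (S.k 0)) (A : ℂ), Complex.norm_real,
    Real.norm_eq_abs, abs_of_nonneg hA0]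
  have b3 : ‖((B - qn S h * A : ℝ) : ℂ) + ph 4 * (D : ℂ)‖ ≤ 2 * ε * A := by
    refine (norm_add_le _ _).trans ?_
    rw [Complex.norm_real, Real.norm_eq_abs, norm_mul, ph_norm, one_mul, Complex.norm_real,
      Real.norm_eq_abs, abs_of_nonneg hD0]
    linarith
  calc _ ≤ ‖(1 - ph 2) * ph (S.k 0)‖ * (2 * ε * A) :=
        mul_le_mul_of_nonneg_left b3 (norm_nonneg _)
    _ = _ := by ring

/-- normalisation of increments -/
lemma nrm_sub (P : PType) (h : ℕ) (Ht : ℤ × ℤ → ℂ) (p q : ℤ × ℤ) :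
    nrm P h Ht p - nrm P h Ht q =
      (((2 * h : ℝ) ^ (-(2 / 3) : ℝ) : ℝ) : ℂ) * (Ht p - Ht q) := by
  unfold nrm; ring

lemma floor_lim {t : ℝ} (ht : 0 ≤ t) :
    Tendsto (fun h : ℕ => (((2 * (⌊t * h⌋₊ : ℤ) + 1 : ℤ) : ℝ)) / (2 * h)) atTop (𝓝 t) := by
  have h1 : Tendsto (fun h : ℕ => (⌊t * h⌋₊ : ℝ) / (h : ℝ)) atTop (𝓝 t) :=
    (tendsto_nat_floor_mul_div_atTop (R := ℝ) ht).comp tendsto_natCast_atTop_atTop
  have h2 : Tendsto (fun h : ℕ => ((1 : ℝ) / 2) * (1 / (h : ℝ))) atTop (𝓝 ((1 / 2) * 0)) :=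
    tendsto_const_nhds.mul tendsto_one_div_atTop_nhds_zero_nat
  have h3 := h1.add h2
  rw [mul_zero, add_zero] at h3
  refine h3.congr' ?_
  filter_upwards [eventually_ge_atTop 1] with h hh
  have : (h : ℝ) ≠ 0 := by positivity
  push_cast
  field_simp

lemma one_lim : Tendsto (fun h : ℕ => (((1 : ℤ) : ℝ)) / (2 * h)) atTop (𝓝 0) := by
  have h2 : Tendsto (fun h : ℕ => ((1 : ℝ) / 2) * (1 / (h : ℝ))) atTop (𝓝 ((1 / 2) * 0)) :=
    tendsto_const_nhds.mul tendsto_one_div_atTop_nhds_zero_nat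
  rw [mul_zero] at h2
  refine h2.congr' ?_
  filter_upwards [eventually_ge_atTop 1] with h hh
  have : (h : ℝ) ≠ 0 := by positivity
  push_cast
  field_simp

/-- limit of the normalised increments along the side `0` -/
lemma lim_incr {P : PType} {Ht : ℕ → ℤ × ℤ → ℂ} {U : Ultrafilter ℕ} (hU : (U : Filter ℕ) ≤ atTop)
    {g : ℂ → ℂ} (L : IsLim4 P (fun j => j) Ht U g) {t : ℝ} (t0 : 0 ≤ t) (t1 : t < 1) :
    Tendsto (fun h : ℕ => nrm P h (Ht h) (wp (2 * h) (P.side 0) (2 * (⌊t * h⌋₊ : ℤ) + 1)) -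
      nrm P h (Ht h) (wp (2 * h) (P.side 0) 1)) U
      (𝓝 (g (P.sidePt ic ic 0 t) - g (pt ic ic (P.vert 0)))) := by
  have hm : ∀ s ∈ Set.Icc (0 : ℝ) 1, P.sidePt ic ic 0 s ∈ Reg P.Q ic ic := fun s hs =>
    Pool.Agent.Q1.M4.sidePt_mem ic_mono ic_mono P 0 hs.1 hs.2
  have e0 : pt ic ic (P.vert 0) = P.sidePt ic ic 0 0 := (P.sidePt_zero 0).symm
  rw [e0]
  refine Tendsto.sub ?_ ?_
  · refine lim_val hU L 0 ((floor_lim t0).mono_left hU) ?_ (hm t ⟨t0, t1.le⟩)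
    filter_upwards [hU (eventually_ge_atTop 1)] with h hh
    have h1 : (⌊t * h⌋₊ : ℝ) ≤ t * h := Nat.floor_le (by positivity)
    have h2 : (0 : ℝ) < h := by exact_mod_cast hh
    have h3 : (⌊t * h⌋₊ : ℝ) < h := lt_of_le_of_lt h1 (by nlinarith)
    have h4 : ⌊t * h⌋₊ < h := by exact_mod_cast h3
    constructor
    · positivity
    · omega
  · refine lim_val hU L 0 (one_lim.mono_left hU) ?_ (hm 0 ⟨le_rfl, zero_le_one⟩)
    filter_upwards [hU (eventually_ge_atTop 1)] with h hh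
    omega

lemma kap_ne : (1 - ph 2 : ℂ) ≠ 0 := by
  have h1 : ph 3 = ph 2 * ph 1 := by rw [← ph_add]; rfl
  intro h
  have h2 : ph 2 = 1 := (sub_eq_zero.1 h).symm
  rw [h2, one_mul, ph_three] at h1
  have h4 : ph 2 = ph 1 * ph 1 := by rw [← ph_add]; rfl
  have h5 := ph_rec 0
  rw [zero_add, zero_add, ph_zero, h2, ← h1] at h5
  norm_num at h5

lemma scale_pow {h : ℕ} (hh : 1 ≤ h) :
    (2 * (h : ℝ)) ^ (-(2 / 3) : ℝ) * (h : ℝ) ^ (2 / 3 : ℝ) = 2 ^ (-(2 / 3) : ℝ) := by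
  have h0 : (0 : ℝ) < h := by exact_mod_cast hh
  rw [Real.mul_rpow (by norm_num) h0.le, mul_assoc, ← Real.rpow_add h0, neg_add_cancel,
    Real.rpow_zero, mul_one]

/-- **`h23` is not constant.** -/
theorem nonconst {S : Shape} (hM : MarkBound S) {H12 H23 H34 : ℕ → ℤ × ℤ → ℂ} {U : Ultrafilter ℕ}
    (hU : (U : Filter ℕ) ≤ atTop) (hT : ∀ᶠ h in (U : Filter ℕ), Tab S h (H12 h) (H23 h) (H34 h))
    {g23 : ℂ → ℂ} (L : IsLim4 S.P (fun j => j) H23 U g23) :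
    g23 (S.P.sidePt ic ic 0 (1 / 2)) ≠ g23 (pt ic ic (S.P.vert 0)) := by
  obtain ⟨c, hc, H0, hlow⟩ := hM.low (1 / 2) (by norm_num) (by norm_num)
  have hl := (lim_incr hU L (t := 1 / 2) (by norm_num) (by norm_num)).norm
  intro he
  rw [he, sub_self, norm_zero] at hl
  have hk : 0 < ‖(1 - ph 2 : ℂ)‖ := norm_pos_iff.2 kap_ne
  have hb : ∀ᶠ h : ℕ in (U : Filter ℕ), ‖(1 - ph 2 : ℂ)‖ * c * 2 ^ (-(2 / 3) : ℝ) ≤
      ‖nrm S.P h (H23 h) (wp (2 * h) (S.P.side 0) (2 * (⌊(1 / 2 : ℝ) * h⌋₊ : ℤ) + 1)) -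
        nrm S.P h (H23 h) (wp (2 * h) (S.P.side 0) 1)‖ := by
    filter_upwards [hU (eventually_ge_atTop 1), hU (eventually_ge_atTop H0), hT] with h h1 h2 T
    have h0 : (0 : ℝ) < h := by exact_mod_cast h1
    have h3 : (⌊(1 / 2 : ℝ) * h⌋₊ : ℝ) ≤ 1 / 2 * h := Nat.floor_le (by positivity)
    have h4 : ⌊(1 / 2 : ℝ) * h⌋₊ < h := by
      have : (⌊(1 / 2 : ℝ) * h⌋₊ : ℝ) < h := by linarith
      exact_mod_cast this
    have h5 := hlow h h2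
    change c * (h : ℝ) ^ (2 / 3 : ℝ) ≤ ∑ j ∈ Icc 1 ⌊(1 / 2 : ℝ) * h⌋₊, ac S h j at h5
    have h6 : 0 ≤ ∑ j ∈ Icc 1 ⌊(1 / 2 : ℝ) * h⌋₊, ac S h j :=
      sum_nonneg fun j _ => ac_nonneg _ _ _
    have h7 : 0 ≤ (2 * (h : ℝ)) ^ (-(2 / 3) : ℝ) := by positivity
    rw [nrm_sub, (one_sum T h4).1, norm_mul, norm_mul, norm_mul, ph_norm, mul_one,
      Complex.norm_real, Complex.norm_real, Real.norm_eq_abs, Real.norm_eq_abs, abs_of_nonneg h7,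
      abs_of_nonneg h6]
    calc ‖(1 - ph 2 : ℂ)‖ * c * 2 ^ (-(2 / 3) : ℝ)
        = (2 * (h : ℝ)) ^ (-(2 / 3) : ℝ) * (‖(1 - ph 2 : ℂ)‖ * (c * (h : ℝ) ^ (2 / 3 : ℝ))) := by
          rw [← scale_pow h1]; ring
      _ ≤ _ := mul_le_mul_of_nonneg_left (mul_le_mul_of_nonneg_left h5 hk.le) h7
  have h9 := ge_of_tendsto hl hb
  have : 0 < ‖(1 - ph 2 : ℂ)‖ * c * 2 ^ (-(2 / 3) : ℝ) := by positivity
  linarith

/-- **The ratio on the side `0`**: for every error. -/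
theorem ratio_side {S : Shape} (hM : MarkBound S) {H12 H23 H34 : ℕ → ℤ × ℤ → ℂ}
    {U : Ultrafilter ℕ} (hU : (U : Filter ℕ) ≤ atTop)
    (hT : ∀ᶠ h in (U : Filter ℕ), Tab S h (H12 h) (H23 h) (H34 h)) {g12 g23 : ℂ → ℂ}
    (L12 : IsLim4 S.P (fun j => j) H12 U g12) (L23 : IsLim4 S.P (fun j => j) H23 U g23) {q : ℝ}
    (hq : Tendsto (qn S) U (𝓝 q)) {ε : ℝ} (hε : 0 < ε) :
    ∃ r > 0, ∀ t : ℝ, 0 < t → t ≤ r → t < 1 →
      ‖(g12 (S.P.sidePt ic ic 0 t) - g12 (pt ic ic (S.P.vert 0))) -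
        (q : ℂ) * (g23 (S.P.sidePt ic ic 0 t) - g23 (pt ic ic (S.P.vert 0)))‖ ≤
      2 * ε * ‖g23 (S.P.sidePt ic ic 0 t) - g23 (pt ic ic (S.P.vert 0))‖ := by
  obtain ⟨r, hr, H0, hdec⟩ := hM.dec ε hε
  refine ⟨r, hr, fun t t0 tr t1 => ?_⟩
  have l12 := lim_incr hU L12 (t := t) t0.le t1
  have l23 := lim_incr hU L23 (t := t) t0.le t1
  have hqc : Tendsto (fun h => (qn S h : ℂ)) U (𝓝 (q : ℂ)) :=
    (Complex.continuous_ofReal.tendsto q).comp hq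
  have l1 := (l12.sub (hqc.mul l23)).norm
  have l2 := (l23.norm).const_mul (2 * ε)
  refine le_of_tendsto_of_tendsto l1 l2 ?_
  filter_upwards [hU (eventually_ge_atTop 1), hU (eventually_ge_atTop H0), hT] with h h1 h2 T
  have h0 : (0 : ℝ) < h := by exact_mod_cast h1
  have h3 : (⌊t * h⌋₊ : ℝ) ≤ t * h := Nat.floor_le (by positivity)
  have h4 : ⌊t * h⌋₊ < h := by
    have : (⌊t * h⌋₊ : ℝ) < h := lt_of_le_of_lt h3 (by nlinarith)
    exact_mod_cast this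
  have h5 := dec_sum T h4 (ε := ε) (fun j j1 j2 => by
    have h6 : (j : ℝ) ≤ r * h := by
      have : (j : ℝ) ≤ (⌊t * h⌋₊ : ℝ) := by exact_mod_cast j2
      nlinarith
    exact hdec h h2 j j1 h6)
  have h7 : 0 ≤ (2 * (h : ℝ)) ^ (-(2 / 3) : ℝ) := by positivity
  rw [nrm_sub, nrm_sub]
  have e : (((2 * h : ℝ) ^ (-(2 / 3) : ℝ) : ℝ) : ℂ) *
        (H12 h (wp (2 * h) (S.P.side 0) (2 * (⌊t * h⌋₊ : ℤ) + 1)) -
          H12 h (wp (2 * h) (S.P.side 0) 1)) -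
      (qn S h : ℂ) * ((((2 * h : ℝ) ^ (-(2 / 3) : ℝ) : ℝ) : ℂ) *
        (H23 h (wp (2 * h) (S.P.side 0) (2 * (⌊t * h⌋₊ : ℤ) + 1)) -
          H23 h (wp (2 * h) (S.P.side 0) 1))) =
      (((2 * h : ℝ) ^ (-(2 / 3) : ℝ) : ℝ) : ℂ) *
        ((H12 h (wp (2 * h) (S.P.side 0) (2 * (⌊t * h⌋₊ : ℤ) + 1)) -
          H12 h (wp (2 * h) (S.P.side 0) 1)) - (qn S h : ℂ) *
        (H23 h (wp (2 * h) (S.P.side 0) (2 * (⌊t * h⌋₊ : ℤ) + 1)) -
          H23 h (wp (2 * h) (S.P.side 0) 1))) := by ring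
  rw [e, norm_mul, norm_mul, Complex.norm_real, Real.norm_eq_abs, abs_of_nonneg h7]
  calc _ ≤ (2 * (h : ℝ)) ^ (-(2 / 3) : ℝ) * _ := mul_le_mul_of_nonneg_left h5 h7
    _ = _ := by ring

lemma qn_mem (S : Shape) (h : ℕ) : qn S h ∈ Set.Icc (0 : ℝ) 1 := ⟨Pr_nonneg _ _, Pr_le_one _ _⟩

lemma dist_side (P : PType) {t : ℝ} (ht : 0 ≤ t) :
    dist (P.sidePt ic ic 0 t) (pt ic ic (P.vert 0)) = t := by
  rw [sidePt_ic, dist_eq_norm, add_sub_cancel_left, norm_mul, Complex.norm_real,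
    Real.norm_eq_abs, abs_of_nonneg ht]
  have : ‖cdir (P.side 0).2‖ = 1 := by
    unfold cdir
    rw [Complex.norm_eq_sqrt_sq_add_sq]
    rcases dir_cases (P.side 0).2 with ⟨-, e⟩ | ⟨-, e⟩ | ⟨-, e⟩ | ⟨-, e⟩ <;> rw [e] <;> simp
  rw [this, mul_one]

/-- **The limit of `qn` along an ultrafilter.** -/
theorem lim_eq {S : Shape} {φ : ℂ → ℂ} (C : Cht S.P ic ic φ) (hM : MarkBound S)
    {H12 H23 H34 : ℕ → ℤ × ℤ → ℂ} {U : Ultrafilter ℕ} (hU : (U : Filter ℕ) ≤ atTop)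
    (hT : ∀ᶠ h in (U : Filter ℕ), Tab S h (H12 h) (H23 h) (H34 h)) {g12 g23 g34 : ℂ → ℂ}
    (L12 : IsLim4 S.P (fun j => j) H12 U g12) (L23 : IsLim4 S.P (fun j => j) H23 U g23)
    (D : Data4 S.P ic ic S.m2 S.m3 S.m4 (fun z => (1 - ph 2)⁻¹ * g12 z)
      (fun z => (1 - ph 2)⁻¹ * g23 z) (fun z => (1 - ph 2)⁻¹ * g34 z)) {q : ℝ}
    (hq : Tendsto (qn S) U (𝓝 q)) : q = cardy (lam S.P ic ic S.m2 S.m3 S.m4 φ) := by
  set cr := cardy (lam S.P ic ic S.m2 S.m3 S.m4 φ) with hcr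
  by_contra hne
  have hd : 0 < |q - cr| := abs_pos.2 (sub_ne_zero.2 hne)
  set d := |q - cr| with hdd
  have hk : (1 - ph 2 : ℂ) ≠ 0 := kap_ne
  have hnc := nonconst hM hU hT L23
  have hm : ∀ s : ℝ, 0 ≤ s → s ≤ 1 → S.P.sidePt ic ic 0 s ∈ Reg S.P.Q ic ic := fun s h0 h1 =>
    Pool.Agent.Q1.M4.sidePt_mem ic_mono ic_mono S.P 0 h0 h1
  have h0m : pt ic ic (S.P.vert 0) ∈ Reg S.P.Q ic ic := by
    have := hm 0 le_rfl zero_le_one
    rwa [S.P.sidePt_zero] at this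
  obtain ⟨r1, hr1, hD⟩ := D.ratio C ⟨_, hm (1 / 2) (by norm_num) (by norm_num), _, h0m,
    fun h => hnc (mul_left_cancel₀ (inv_ne_zero hk) h)⟩ (ε := d / 4) (by linarith)
  obtain ⟨r2, hr2, hS⟩ := ratio_side hM hU hT L12 L23 hq (ε := d / 8) (by linarith)
  set t := min (r1 / 2) (min r2 (1 / 2)) with ht
  have t0 : 0 < t := lt_min (by linarith) (lt_min hr2 (by norm_num))
  have t1 : t ≤ r1 / 2 := min_le_left _ _
  have t2 : t ≤ r2 := (min_le_right _ _).trans (min_le_left _ _)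
  have t3 : t ≤ 1 / 2 := (min_le_right _ _).trans (min_le_right _ _)
  have hdist := dist_side S.P t0.le
  have hz : S.P.sidePt ic ic 0 t ≠ pt ic ic (S.P.vert 0) := by
    intro h
    rw [h, dist_self] at hdist
    linarith
  obtain ⟨a1, a2⟩ := hD _ (hm t t0.le (by linarith)) hz (by rw [hdist]; linarith)
  have a3 := hS t t0 t2 (by linarith)
  set A := g12 (S.P.sidePt ic ic 0 t) - g12 (pt ic ic (S.P.vert 0)) with hA
  set B := g23 (S.P.sidePt ic ic 0 t) - g23 (pt ic ic (S.P.vert 0)) with hB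
  have hB0 : B ≠ 0 := by
    intro h
    apply a1
    show (1 - ph 2)⁻¹ * g23 _ = (1 - ph 2)⁻¹ * g23 _
    rw [sub_eq_zero.1 h]
  have hBn : 0 < ‖B‖ := norm_pos_iff.2 hB0
  have hki : 0 < ‖(1 - ph 2 : ℂ)⁻¹‖ := norm_pos_iff.2 (inv_ne_zero hk)
  have a4 : ‖A - (cr : ℂ) * B‖ ≤ d / 4 * ‖B‖ := by
    have e1 : (1 - ph 2)⁻¹ * g12 (S.P.sidePt ic ic 0 t) - (1 - ph 2)⁻¹ * g12 (pt ic ic (S.P.vert 0))
        - (cr : ℂ) * ((1 - ph 2)⁻¹ * g23 (S.P.sidePt ic ic 0 t) -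
          (1 - ph 2)⁻¹ * g23 (pt ic ic (S.P.vert 0))) = (1 - ph 2)⁻¹ * (A - (cr : ℂ) * B) := by
      rw [hA, hB]; ring
    have e2 : (1 - ph 2)⁻¹ * g23 (S.P.sidePt ic ic 0 t) -
          (1 - ph 2)⁻¹ * g23 (pt ic ic (S.P.vert 0)) = (1 - ph 2)⁻¹ * B := by
      rw [hB]; ring
    rw [e1, e2, norm_mul, norm_mul] at a2
    nlinarith
  have a5 : ‖((q - cr : ℝ) : ℂ) * B‖ ≤ d / 2 * ‖B‖ := by
    have e3 : ((q - cr : ℝ) : ℂ) * B = (A - (cr : ℂ) * B) - (A - (q : ℂ) * B) := by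
      push_cast; ring
    rw [e3]
    refine (norm_sub_le _ _).trans ?_
    linarith
  rw [norm_mul, Complex.norm_real, Real.norm_eq_abs, ← hdd] at a5
  nlinarith

end Pool.Agent.H14.FM
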