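import Mathlib
import Pool.Agent.H14.FM.End

set_option autoImplicit false
open Filter Topology Finset

/-! # Cardy's formula on a shape, from the limit passage -/

namespace Pool.Agent.H14.FM

open Pool.Agent.H75.Perc hiding WL CT hh ph
open Pool.Agent.H75.TwoArm Pool.Agent.H75.Four Pool.Agent.H69.Q1 Pool.Agent.Q1
open Pool.Agent.Q1.M4 (Cell Good IsSide nextSide tail head PType Reg Om lat inV inRect lpt pt)
open Pool.Agent.H33.Q1 Pool.Agent.H21.FM
open Pool.Agent.H19.RH (Cht Data4 lam)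
open Pool.Agent.H13.Q1.Four (cardy)

/-- the limit step (helper58) -/
def DataOK (S : Shape) : Prop :=
  ∀ (U : Ultrafilter ℕ), (U : Filter ℕ) ≤ atTop → ∀ (H12 H23 H34 : ℕ → ℤ × ℤ → ℂ),
    (∀ᶠ h in (U : Filter ℕ), Tab S h (H12 h) (H23 h) (H34 h)) → ∀ g12 g23 g34 : ℂ → ℂ,
    IsLim4 S.P (fun j => j) H12 U g12 → IsLim4 S.P (fun j => j) H23 U g23 →
    IsLim4 S.P (fun j => j) H34 U g34 →
    Data4 S.P ic ic S.m2 S.m3 S.m4 (fun z => (1 - ph 2)⁻¹ * g12 z)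
      (fun z => (1 - ph 2)⁻¹ * g23 z) (fun z => (1 - ph 2)⁻¹ * g34 z)

/-- the three environments with their primitives at scale `h` -/
def Tri (S : Shape) (K : Env → Prop) (h : ℕ) (X : Fin 3 → Env) (H : Fin 3 → ℤ × ℤ → ℂ) : Prop :=
  (∀ i, K (X i) ∧ (X i).E = TL S.P.Q (2 * h) ∧ GPrim (X i) (H i)) ∧ Tab S h (H 0) (H 1) (H 2)

/-- **Cardy's formula on a shape.** -/
theorem cardy_shape (S : Shape) {φ : ℂ → ℂ} (C : Cht S.P ic ic φ) {K : Env → Prop}
    (hL : LimOK S.P K) (hM : MarkBound S) (hDt : DataOK S)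
    (hE : ∀ᶠ h : ℕ in atTop, ∃ X H, Tri S K h X H) :
    Tendsto (fun h => qn S h) atTop (𝓝 (cardy (lam S.P ic ic S.m2 S.m3 S.m4 φ))) := by
  classical
  rw [tendsto_iff_ultrafilter]
  intro U hU
  -- choose the environments
  obtain ⟨h0, hh0⟩ := eventually_atTop.1 hE
  have hch : ∀ h : ℕ, ∃ XH : (Fin 3 → Env) × (Fin 3 → ℤ × ℤ → ℂ), h0 ≤ h →
      Tri S K h XH.1 XH.2 := by
    intro h
    by_cases hc : h0 ≤ h
    · obtain ⟨X, H, hT⟩ := hh0 h hc
      exact ⟨⟨X, H⟩, fun _ => hT⟩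
    · obtain ⟨X, H, -⟩ := hh0 h0 le_rfl
      exact ⟨⟨X, H⟩, fun h' => absurd h' hc⟩
  choose XH hXH using hch
  have hev : ∀ i : Fin 3, ∀ᶠ h : ℕ in atTop, K ((XH h).1 i) ∧
      ((XH h).1 i).E = TL S.P.Q (2 * ((fun j : ℕ => j) h : ℕ)) ∧
      GPrim ((XH h).1 i) ((XH h).2 i) := by
    intro i
    filter_upwards [eventually_ge_atTop h0] with h hh
    exact (hXH h hh).1 i
  have hid : Tendsto (fun j : ℕ => j) atTop atTop := tendsto_id
  obtain ⟨g12, L12⟩ := hL (fun j => j) hid (fun h => (XH h).1 0) (fun h => (XH h).2 0) (hev 0) U hU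
  obtain ⟨g23, L23⟩ := hL (fun j => j) hid (fun h => (XH h).1 1) (fun h => (XH h).2 1) (hev 1) U hU
  obtain ⟨g34, L34⟩ := hL (fun j => j) hid (fun h => (XH h).1 2) (fun h => (XH h).2 2) (hev 2) U hU
  have hT : ∀ᶠ h : ℕ in (U : Filter ℕ), Tab S h ((XH h).2 0) ((XH h).2 1) ((XH h).2 2) := by
    filter_upwards [hU (eventually_ge_atTop h0)] with h hh
    exact (hXH h hh).2
  have D := hDt U hU _ _ _ hT g12 g23 g34 L12 L23 L34
  obtain ⟨q, -, hq⟩ := (isCompact_Icc (a := (0 : ℝ)) (b := 1)).ultrafilter_le_nhds'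
    (U.map (qn S)) (by
      rw [Ultrafilter.mem_map]
      exact Filter.mem_of_superset Filter.univ_mem fun h _ => qn_mem S h)
  have hq' : Tendsto (qn S) U (𝓝 q) := hq
  have e := lim_eq C hM hU hT L12 L23 D hq'
  rw [← e]
  exact hq'

end Pool.Agent.H14.FM
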